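import Pool.Agent.Lib.FatPoints.Main

set_option autoImplicit false

namespace Pool.Agent.Results.MP_5c1225_ag.DemaillyFatPoints

open Pool.Agent.Lib.FatPoints

/-- Let `k` be a field of characteristic zero, `n ≥ 1`, and let `Z = ∑ mᵢ pᵢ` be a fat point
scheme of `ℙⁿ` (not all `mᵢ` zero), with symbolic powers `I^(r) = ⋂ᵢ I(pᵢ)^(r mᵢ)`. Then
`(α(I^(t)) + n - 1) / (t + n - 1) ≤ α(I^(s)) / s` for all `s, t ≥ 1`. -/
theorem result :
    ∀ (k : Type) [Field k] [CharZero k] (n : ℕ), 1 ≤ n →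
    ∀ (ι : Type) [Fintype ι] (p : ι → Fin (n + 1) → k), (∀ i, p i ≠ 0) →
    ∀ (m : ι → ℕ), (∃ i, 1 ≤ m i) →
    ∀ (t s : ℕ), 1 ≤ t → 1 ≤ s →
    ∀ f : MvPolynomial (Fin (n + 1)) k,
      (∀ i, f ∈ (RingHom.ker (MvPolynomial.eval₂Hom (Polynomial.C : k →+* Polynomial k)
          (fun j => Polynomial.C (p i j) * Polynomial.X))) ^ (s * m i)) →
      f ≠ 0 →
      ∃ g : MvPolynomial (Fin (n + 1)) k,
        (∀ i, g ∈ (RingHom.ker (MvPolynomial.eval₂Hom (Polynomial.C : k →+* Polynomial k)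
          (fun j => Polynomial.C (p i j) * Polynomial.X))) ^ (t * m i)) ∧
        g ≠ 0 ∧
        s * (g.totalDegree + n - 1) ≤ (t + n - 1) * f.totalDegree := by
  intro k _ _ n hn ι _ p hp m hm t s ht hs f hf h0
  obtain ⟨d, g, hg0, hgd, hg, hle⟩ := fat_points n hn p hp m hm t s ht hs f h0 hf
  refine ⟨g, fun i => Ideal.pow_right_mono (LI_le_ker (p i)) _ (hg i), hg0, ?_⟩
  rw [hgd.totalDegree hg0]
  exact hle

end Pool.Agent.Results.MP_5c1225_ag.DemaillyFatPoints
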